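import Mathlib

namespace Pool.Agent.Results.MP_d44763_nt.Necessary

/-- x is a positive rational prime -/
def IsP (x : ℤ) : Prop := ∃ p : ℕ, p.Prime ∧ x = p

/-- every (i,j)-walk from an odd integer has a prime term -/
def Forces (i j : ℕ) : Prop :=
  ∀ A : ℕ → ℤ, Odd (A 0) → (∀ n, A (n + 1) - A n = i ∨ A (n + 1) - A n = j) → ∃ n, IsP (A n)

/-- every odd class modulo i contains infinitely many primes p with p + d prime -/
def Pairs (i d : ℕ) : Prop :=
  ∀ k : ℤ, Odd k → {p : ℤ | (i : ℤ) ∣ p - k ∧ IsP p ∧ IsP (p + d)}.Infinite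

theorem pw (s : ℕ) (hs : 0 < s)
    (h : ∀ A : ℕ → ℤ, Odd (A 0) → (∀ n, A (n + 1) - A n = s) → ∃ n, IsP (A n)) :
    ∃ a, s = 2 ^ a := by
  refine ⟨_, Nat.eq_prime_pow_of_unique_prime_dvd hs.ne' fun {q} hq hd => ?_⟩
  by_contra e
  obtain ⟨c, rfl⟩ := hd
  have ho : Odd q := hq.odd_of_ne_two e
  obtain ⟨n, p, hp, hn⟩ := h (fun n => ((q * (q + n * c) : ℕ) : ℤ))
    (by have := (ho.mul ho).natCast (R := ℤ); simpa using this) (fun n => by push_cast; ring)
  have h1 : q * (q + n * c) = p := by exact_mod_cast hn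
  rw [← h1] at hp
  have := hq.two_le
  rcases Nat.prime_mul_iff.1 hp with h2 | h2 <;> omega

open Classical in
noncomputable def walk (i j : ℕ) (y : ℤ) : ℕ → ℤ
  | 0 => y
  | n + 1 => if IsP (walk i j y n + i) then walk i j y n + j else walk i j y n + i

theorem nec (i j : ℕ) (hi : 0 < i) (hij : i < j) (he : Even i) (hd : i ∣ j) (h : Forces i j) :
    Pairs i (j - i) := by
  intro k hk hfin
  obtain ⟨B, hB⟩ := hfin.bddAbove
  obtain ⟨c, rfl⟩ := hd
  obtain ⟨y, y1, y2⟩ : ∃ y : ℤ, (i : ℤ) ∣ y - k ∧ B ≤ y :=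
    ⟨k + i * |B - k|, ⟨|B - k|, by ring⟩, by
      have h1 := le_abs_self (B - k)
      have h2 := abs_nonneg (B - k)
      have h3 : (1 : ℤ) ≤ i := by exact_mod_cast hi
      nlinarith⟩
  have step : ∀ n, walk i (i * c) y (n + 1) - walk i (i * c) y n = i ∨
      walk i (i * c) y (n + 1) - walk i (i * c) y n = (i * c : ℕ) := by
    intro n; rw [walk]; split_ifs <;> simp
  have inv : ∀ n, (i : ℤ) ∣ walk i (i * c) y n - k ∧ B ≤ walk i (i * c) y n := by
    intro n
    induction n with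
    | zero => exact ⟨y1, y2⟩
    | succ n ih =>
      obtain ⟨⟨m, hm⟩, h2⟩ := ih
      rcases step n with e | e
      · exact ⟨⟨m + 1, by linear_combination e + hm⟩, by omega⟩
      · exact ⟨⟨m + c, by push_cast at e; linear_combination e + hm⟩, by omega⟩
  obtain ⟨n, hn⟩ := h (fun n => walk i (i * c) y (n + 1)) (by
    obtain ⟨m, hm⟩ := (inv (0 + 1)).1
    obtain ⟨r, rfl⟩ := he
    obtain ⟨t, rfl⟩ := hk
    exact ⟨t + r * m, by push_cast at hm; linear_combination hm⟩) (fun n => step (n + 1))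
  simp only [walk] at hn
  obtain ⟨⟨m, hm⟩, h2⟩ := inv n
  split_ifs at hn with c1
  · have := hB (show walk i (i * c) y n + i ∈ _ from ⟨⟨m + 1, by linear_combination hm⟩, c1, by
      rw [Nat.cast_sub hij.le, add_assoc, add_sub_cancel]; exact hn⟩)
    omega
  · exact c1 hn

theorem suf (i : ℕ) (hi : 0 < i) (h : Pairs i i) : Forces i (2 * i) := by
  classical
  intro A hA hs
  obtain ⟨p, ⟨⟨m, hm⟩, p1, p2⟩, p3⟩ := (h (A 0) hA).exists_notMem_finite (Set.finite_Icc 0 (A 0))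
  have p0 : 0 ≤ p := by obtain ⟨q, -, rfl⟩ := p1; positivity
  have p4 : A 0 < p := by
    by_contra c; exact p3 ⟨p0, not_lt.1 c⟩
  have hi' : (0 : ℤ) < i := by exact_mod_cast hi
  have inv : ∀ n : ℕ, ∃ t : ℤ, A n = A 0 + i * t ∧ n ≤ t := by
    intro n
    induction n with
    | zero => exact ⟨0, by simp, by simp⟩
    | succ n ih =>
      obtain ⟨t, h1, h2⟩ := ih
      rcases hs n with e | e
      · exact ⟨t + 1, by linear_combination e + h1, by push_cast; omega⟩
      · exact ⟨t + 2, by push_cast at e; linear_combination e + h1, by push_cast; omega⟩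
  have ex : ∃ n, p ≤ A n := by
    obtain ⟨t, h1, h2⟩ := inv m.toNat
    have : m ≤ t := (Int.self_le_toNat m).trans h2
    exact ⟨m.toNat, by nlinarith⟩
  have f1 := Nat.find_spec ex
  obtain ⟨n, hn⟩ : ∃ n, Nat.find ex = n + 1 := Nat.exists_eq_succ_of_ne_zero (by
    intro e; rw [e] at f1; omega)
  have f2 : ¬ p ≤ A n := Nat.find_min ex (by omega)
  rw [hn] at f1
  obtain ⟨t, h1, -⟩ := inv n
  obtain ⟨u, h2, -⟩ := inv (n + 1)
  have g1 : t < m := by by_contra c; apply f2; nlinarith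
  have g2 : m ≤ u := by by_contra c; nlinarith
  have g3 : u ≤ t + 2 := by
    by_contra c
    rcases hs n with e | e
    · nlinarith
    · push_cast at e; nlinarith
  rcases (by omega : u = m ∨ u = m + 1) with e | e
  · exact ⟨n + 1, (show p = A (n + 1) by rw [h2, e]; linarith) ▸ p1⟩
  · exact ⟨n + 1, (show p + i = A (n + 1) by rw [h2, e]; linarith) ▸ p2⟩

theorem result :
    (∀ i j : ℕ, 0 < i → i < j → Even i → Forces i j →
      (∃ a b : ℕ, i = 2 ^ a ∧ j = 2 ^ b) ∧ Pairs i (j - i)) ∧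
    (∀ i : ℕ, 0 < i → Even i → (Forces i (2 * i) ↔ Pairs i i)) := by
  constructor
  · intro i j hi hij he h
    obtain ⟨a, ha⟩ := pw i hi fun A h1 h2 => h A h1 fun n => Or.inl (h2 n)
    obtain ⟨b, hb⟩ := pw j (by omega) fun A h1 h2 => h A h1 fun n => Or.inr (h2 n)
    refine ⟨⟨a, b, ha, hb⟩, nec i j hi hij he ?_ h⟩
    rw [ha, hb] at hij ⊢
    exact pow_dvd_pow _ ((Nat.pow_lt_pow_iff_right (by norm_num)).1 hij).le
  · intro i hi he
    refine ⟨fun h => ?_, suf i hi⟩
    have := nec i (2 * i) hi (by omega) he (Dvd.intro_left 2 rfl) h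
    rwa [show 2 * i - i = i by omega] at this

end Pool.Agent.Results.MP_d44763_nt.Necessary
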